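import Pool.Agent.Helper88.Ric.Stmts

set_option autoImplicit false

open scoped ContDiff Manifold Topology MatrixGroups LinearAlgebra.Projectivization
open Complex

noncomputable section

namespace RicP

/-- exponential of a translate -/
theorem dd_exp {N : ℕ} (hN : N ≠ 0) (τ z : ℂ) (m n : ℤ) :
    exp (2 * Real.pi * I * (z + m * τ + n)) =
      exp (2 * Real.pi * I * z) * exp (2 * Real.pi * I * τ / N) ^ ((N : ℤ) * m) := by
  have hN' : (N : ℂ) ≠ 0 := by exact_mod_cast hN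
  rw [← Complex.exp_int_mul, ← Complex.exp_add]
  have h : 2 * Real.pi * I * (z + m * τ + n) =
      (2 * Real.pi * I * z + (((N : ℤ) * m : ℤ) : ℂ) * (2 * Real.pi * I * τ / N))
        + (n : ℂ) * (2 * Real.pi * I) := by
    push_cast
    field_simp
  rw [h, Complex.exp_add _ ((n : ℂ) * (2 * Real.pi * I)), Complex.exp_int_mul_two_pi_mul_I,
    mul_one]

/-- exponential of a translate, first coordinate -/
theorem dd_exp1 {N : ℕ} (hN : N ≠ 0) (τ : ℂ) (j : ℤ) :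
    exp (2 * Real.pi * I * (τ + (N : ℂ) * j) / N) = exp (2 * Real.pi * I * τ / N) := by
  have hN' : (N : ℂ) ≠ 0 := by exact_mod_cast hN
  have h : 2 * Real.pi * I * (τ + (N : ℂ) * j) / N =
      2 * Real.pi * I * τ / N + (j : ℂ) * (2 * Real.pi * I) := by
    field_simp
  rw [h, Complex.exp_add, Complex.exp_int_mul_two_pi_mul_I, mul_one]

/-- heights in the node charts -/
theorem dd_height {N : ℕ} (hN : 8 ≤ N) {k : ZMod N} {p x₀ : E} (hp : p ∈ UD) (h : D0 k p x₀) :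
    1 < x₀.1.im := by
  obtain ⟨h1, h2, -⟩ := h
  by_contra hc
  rw [not_lt] at hc
  have hN8 : (8 : ℝ) ≤ N := by exact_mod_cast hN
  have hN0 : (0 : ℝ) < N := by linarith
  have h3 : ‖p.1 * p.2‖ = Real.exp (-(2 * Real.pi * x₀.1.im / N)) := by
    rw [← h2, Complex.norm_exp]
    congr 1
    have e1 : 2 * (Real.pi : ℂ) * I * x₀.1 / N = ((2 * Real.pi / N : ℝ) : ℂ) * (I * x₀.1) := by
      push_cast
      ring
    rw [e1, Complex.re_ofReal_mul]
    simp only [Complex.mul_re, Complex.I_re, Complex.I_im]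
    ring
  have h4 : ‖p.1 * p.2‖ < 2 / 5 := hp.2.2
  have h5 : 2 * Real.pi * x₀.1.im / N ≤ 0.7856 := by
    rw [div_le_iff₀ hN0]
    have := Real.pi_lt_d4
    have := Real.pi_pos
    nlinarith
  set y := 2 * Real.pi * x₀.1.im / N with hy
  have h6 : Real.exp (-y) = Real.exp (-(y / 4)) ^ 4 := by
    rw [← Real.exp_nat_mul]
    congr 1
    push_cast
    ring
  have h7 : (0.8036 : ℝ) ≤ Real.exp (-(y / 4)) := by
    have := Real.add_one_le_exp (-(y / 4))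
    linarith
  have h8 : (0.8036 : ℝ) ^ 4 ≤ Real.exp (-(y / 4)) ^ 4 := pow_le_pow_left₀ (by norm_num) h7 4
  rw [h3, h6] at h4
  norm_num at h8
  linarith

/-- sizes -/
theorem dd_size {a b q : ℂ} (ha : ‖a‖ < 65 / 64) (hb : ‖b‖ < 65 / 64) (hq : ‖q‖ < 2 / 5)
    (e : ℕ) : a * b * q ^ (e + 1) ≠ 1 := by
  intro h
  have h1 : ‖a‖ * ‖b‖ * ‖q‖ ^ (e + 1) = 1 := by
    rw [← norm_mul, ← norm_pow, ← norm_mul, h, norm_one]
  have h2 : ‖q‖ ^ (e + 1) ≤ ‖q‖ := by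
    rw [pow_succ]
    have : ‖q‖ ^ e ≤ 1 := pow_le_one₀ (norm_nonneg _) (by linarith)
    nlinarith [norm_nonneg q]
  have h3 : ‖a‖ * ‖b‖ ≤ 65 / 64 * (65 / 64) :=
    mul_le_mul ha.le hb.le (norm_nonneg _) (by norm_num)
  have h4 : ‖a‖ * ‖b‖ * ‖q‖ ^ (e + 1) ≤ 65 / 64 * (65 / 64) * (2 / 5) :=
    mul_le_mul h3 (h2.trans hq.le) (pow_nonneg (norm_nonneg _) _) (by norm_num)
  rw [h1] at h4
  norm_num at h4

/-- invariance of the section under translations by multiples of `N` -/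
theorem dd_sF (M : ModData) (t : ℝ) (ζ : ℂ) (γ : SL(2, ℤ)) (τ : ℂ) (hτ : 0 < τ.im)
    (h10 : γ 1 0 = 0) (h00 : γ 0 0 = 1) (h11 : γ 1 1 = 1) (hχ : M.χ γ = 1)
    (hV1 : M.V₁ γ = 0) (hV2 : M.V₂ γ = 0) (hm : mob γ τ = τ + ((γ 0 1 : ℤ) : ℂ)) :
    sF M t ζ (mob γ τ) = sF M t ζ τ := by
  have p1 := M.period₁ γ τ hτ
  have p2 := M.period₂ γ τ hτ
  rw [h10, h00, hχ, hV1] at p1
  rw [h11, hχ, hV2] at p2
  simp only [Int.cast_one, mul_one, Int.cast_zero, mul_zero, add_zero, Units.val_one, one_mul]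
    at p1 p2
  have p3 : M.F₂ (mob γ τ) = M.F₂ τ - ((γ 0 1 : ℤ) : ℂ) * M.F₁ τ := by
    rw [p1] at p2
    rw [← p2]
    ring
  unfold sF
  rw [p1, p3, hm]
  have e1 : (ζ * (M.F₂ τ - ((γ 0 1 : ℤ) : ℂ) * M.F₁ τ)).re =
      (ζ * M.F₂ τ).re - ((γ 0 1 : ℤ) : ℝ) * (ζ * M.F₁ τ).re := by
    have : ζ * (M.F₂ τ - ((γ 0 1 : ℤ) : ℂ) * M.F₁ τ) =
        ζ * M.F₂ τ - (((γ 0 1 : ℤ) : ℝ) : ℂ) * (ζ * M.F₁ τ) := by
      push_cast
      ring
    rw [this, Complex.sub_re, Complex.re_ofReal_mul]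
  rw [e1]
  push_cast
  ring

/-- the cusp of `q` is determined by the coset -/
theorem dd_cusp (M : ModData) (N : ℕ) (c c' : Cusp M N) (γ : SL(2, ℤ)) (hγ : γ ∈ borel)
    (h : (cout M c : SL(2, ZMod N) × ℂˣ) = (cout M c' : SL(2, ZMod N) × ℂˣ) * hN M N γ) :
    c = c' := by
  have h1 : cout M c = cout M c' * (hN M N).rangeRestrict γ := Subtype.ext h
  have h2 : (hN M N).rangeRestrict γ ∈ HB M N := Subgroup.mem_map_of_mem _ hγ
  have h3 : (QuotientGroup.mk (cout M c) : Cusp M N) = QuotientGroup.mk (cout M c') := by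
    rw [h1]
    exact QuotientGroup.mk_mul_of_mem _ h2
  have h4 : (QuotientGroup.mk (cout M c) : Cusp M N) = c := Quotient.out_eq c
  have h5 : (QuotientGroup.mk (cout M c') : Cusp M N) = c' := Quotient.out_eq c'
  rw [← h4, h3, h5]

/-- algebra of the node coordinates -/
theorem dd_alg {N : ℕ} (hN : 8 ≤ N) {k k' : ZMod N} {p p' : E} (hp : p ∈ UD) (hp' : p' ∈ UD)
    (h0 : p.1 * p.2 ≠ 0) (m : ℤ) (h1 : p'.1 * p'.2 = p.1 * p.2)
    (h2 : p'.2 * (p.1 * p.2) ^ k'.val = p.2 * (p.1 * p.2) ^ k.val *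
      (p.1 * p.2) ^ ((N : ℤ) * m)) : RDD k k' p p' := by
  have : NeZero N := ⟨by omega⟩
  obtain ⟨q, hq⟩ : ∃ q, q = p.1 * p.2 := ⟨_, rfl⟩
  rw [← hq] at h0 h1 h2
  obtain ⟨l, hl⟩ : ∃ l : ℤ, l = (k.val : ℤ) - k'.val + N * m := ⟨_, rfl⟩
  have hq2 : ‖q‖ < 2 / 5 := by rw [hq]; exact hp.2.2
  have hp1 : p.1 ≠ 0 := fun h => h0 (by rw [hq, h, zero_mul])
  have hp2 : p.2 ≠ 0 := fun h => h0 (by rw [hq, h, mul_zero])
  have h3 : p'.2 = p.2 * q ^ l := by
    have e1 : q ^ l = q ^ k.val * q ^ ((N : ℤ) * m) * (q ^ k'.val)⁻¹ := by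
      rw [hl, zpow_add₀ h0, zpow_sub₀ h0, zpow_natCast, zpow_natCast]
      field_simp
    have e2 : q ^ k'.val ≠ 0 := pow_ne_zero _ h0
    rw [e1, ← mul_assoc, ← mul_assoc, ← h2, mul_assoc, mul_inv_cancel₀ e2, mul_one]
  have hk : (k : ZMod N) - k' = (l : ZMod N) := by
    rw [hl]
    push_cast
    rw [ZMod.natCast_zmod_val, ZMod.natCast_zmod_val, ZMod.natCast_self, zero_mul, add_zero]
  have hcases : l = 0 ∨ l = 1 ∨ l = -1 ∨ 2 ≤ l ∨ l ≤ -2 := by omega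
  rcases hcases with hc | hc | hc | hc | hc
  · rw [hc, zpow_zero, mul_one] at h3
    refine Or.inl ⟨?_, ?_⟩
    · rw [hc, Int.cast_zero, sub_eq_zero] at hk
      exact hk
    · rw [h3, hq] at h1
      exact Prod.ext (mul_right_cancel₀ hp2 h1).symm h3.symm
  · rw [hc, zpow_one] at h3
    refine Or.inr (Or.inl ⟨?_, ?_, ?_⟩)
    · rw [hc, Int.cast_one, sub_eq_iff_eq_add] at hk
      rw [hk]
      ring
    · rw [h3] at h1
      have : p'.1 * p.2 * q = 1 * q := by rw [one_mul, mul_assoc, h1]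
      exact mul_right_cancel₀ h0 this
    · rw [h3, hq]
      ring
  · have h4 : p'.2 * q = p.2 := by
      rw [h3, hc, zpow_neg, zpow_one, mul_assoc, inv_mul_cancel₀ h0, mul_one]
    have h5 : p.1 * p'.2 = 1 := by
      have : p.1 * p'.2 * q = 1 * q := by rw [one_mul, mul_assoc, h4, ← hq]
      exact mul_right_cancel₀ h0 this
    refine Or.inr (Or.inr ⟨?_, h5, ?_⟩)
    · rw [hc, Int.cast_neg, Int.cast_one, sub_eq_iff_eq_add] at hk
      rw [hk]
      ring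
    · have : p'.1 * (p.1 * p'.2) = p.1 ^ 2 * p.2 := by
        calc p'.1 * (p.1 * p'.2) = p.1 * (p'.1 * p'.2) := by ring
          _ = p.1 ^ 2 * p.2 := by rw [h1, hq]; ring
      rw [h5, mul_one] at this
      exact this
  · exfalso
    obtain ⟨e, he⟩ := Int.eq_ofNat_of_zero_le (show 0 ≤ l - 2 by omega)
    have e1 : l = ((e + 2 : ℕ) : ℤ) := by push_cast; omega
    rw [e1, zpow_natCast] at h3
    refine dd_size hp'.1 hp.2.1 hq2 e ?_
    have : p'.1 * p.2 * q ^ (e + 1) * q = 1 * q := by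
      rw [one_mul]
      calc p'.1 * p.2 * q ^ (e + 1) * q = p'.1 * (p.2 * q ^ (e + 2)) := by ring
        _ = q := by rw [← h3, h1]
    exact mul_right_cancel₀ h0 this
  · exfalso
    obtain ⟨e, he⟩ := Int.eq_ofNat_of_zero_le (show 0 ≤ -l - 2 by omega)
    have e1 : l = -((e + 2 : ℕ) : ℤ) := by push_cast; omega
    rw [e1, zpow_neg, zpow_natCast] at h3
    have h4 : p'.2 * q ^ (e + 2) = p.2 := by
      rw [h3, mul_assoc, inv_mul_cancel₀ (pow_ne_zero _ h0), mul_one]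
    refine dd_size hp.1 hp'.2.1 hq2 e ?_
    have : p.1 * p'.2 * q ^ (e + 1) * q = 1 * q := by
      rw [one_mul]
      calc p.1 * p'.2 * q ^ (e + 1) * q = p.1 * (p'.2 * q ^ (e + 2)) := by ring
        _ = q := by rw [h4, hq]
    exact mul_right_cancel₀ h0 this

/-- a translate of the coordinates -/
theorem dd_back {N : ℕ} (hN : 8 ≤ N) {k k' : ZMod N} {p p' x₀ : E} (h : D0 k p x₀)
    (h0 : p.1 * p.2 ≠ 0) (l : ℤ) (h1 : p'.1 * p'.2 = p.1 * p.2)
    (h2 : p'.2 = p.2 * (p.1 * p.2) ^ l) (hk : k - k' = (l : ZMod N)) :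
    ∃ m : ℤ, D0 k' p' (x₀.1, x₀.2 + m * x₀.1) := by
  have : NeZero N := ⟨by omega⟩
  obtain ⟨a1, a2, a3⟩ := h
  have h3 : ((((k.val : ℤ) - k'.val - l : ℤ)) : ZMod N) = 0 := by
    push_cast
    rw [ZMod.natCast_zmod_val, ZMod.natCast_zmod_val, hk, sub_self]
  obtain ⟨m, hm⟩ := (ZMod.intCast_zmod_eq_zero_iff_dvd _ N).1 h3
  refine ⟨-m, a1, ?_, ?_⟩
  · rw [h1]
    exact a2
  · have h4 := dd_exp (show N ≠ 0 by omega) x₀.1 x₀.2 (-m) 0
    rw [Int.cast_zero, add_zero] at h4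
    rw [h4, a2, a3, h1, h2]
    have e1 : (N : ℤ) * -m = l + k'.val - k.val := by linarith
    rw [e1, zpow_sub₀ h0, zpow_add₀ h0, zpow_natCast, zpow_natCast]
    have : (p.1 * p.2) ^ k.val ≠ 0 := pow_ne_zero _ h0
    generalize (p.1 * p.2) ^ k.val = A at this
    generalize (p.1 * p.2) ^ k'.val = B
    generalize (p.1 * p.2) ^ l = C
    field_simp

theorem dd_hN_one (M : ModData) (N : ℕ) (γ : SL(2, ℤ)) (h : hN M N γ = 1) : M.χ γ = 1 := by
  have := congrArg Prod.snd h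
  simpa [hN] using this

theorem dd_mob_one (τ : ℂ) : mob 1 τ = τ ∧ jj 1 τ = 1 := by
  constructor
  · simp [mob]
  · simp [jj]

/-- **Module DD.** -/
theorem st_DD (hHT : ST_HT) (hBOR : ST_BOR) (hDL : ST_DL) : ST_DD := by
  intro M N hNok t c c' k k' p hp p' hp' h0 h0'
  have hN8 : 8 ≤ N := hNok.2
  have hN0 : N ≠ 0 := by omega
  constructor
  · rintro ⟨x₀, x₁, d0, d1, γ, m, n, hq, e1, e2⟩
    have ht0 := dd_height hN8 hp d0
    have ht1 := dd_height hN8 hp' d1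
    have ht00 : 0 < x₀.1.im := by linarith
    have hb : γ ∈ borel := (hHT γ x₀.1 ht00).2.2 (by rw [← e1]; nlinarith)
    have hcc := dd_cusp M N c c' γ hb hq
    subst hcc
    refine ⟨rfl, ?_⟩
    have hN1 : hN M N γ = 1 := by
      have := congrArg (fun x => ((cout M c : QN M N) : SL(2, ZMod N) × ℂˣ)⁻¹ * x) hq
      simp only [inv_mul_cancel, inv_mul_cancel_left] at this
      exact this.symm
    obtain ⟨s, hs, s00, s11, hjm, v1, v2, hB, -⟩ := hBOR M γ hb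
    obtain ⟨hs1, hdvd⟩ := hB N (by omega) hN1
    subst hs1
    obtain ⟨j, hj⟩ := hdvd
    have hmob : mob γ x₀.1 = x₀.1 + ((γ 0 1 : ℤ) : ℂ) := by
      rw [(hjm x₀.1).2, one_mul]
    have hχ := dd_hN_one M N γ hN1
    have h10 : γ 1 0 = 0 := hb
    have hsF := dd_sF M t (zet M (cout M c)) γ x₀.1 ht00 h10 s00 s11 hχ v1 v2 hmob
    rw [e1, hsF, (hjm x₀.1).1, Int.cast_one, mul_one] at e2
    have hx1 : x₁.1 = x₀.1 + (N : ℂ) * j := by
      rw [e1, hmob, hj]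
      push_cast
      ring
    have hx2 : x₁.2 = x₀.2 + m * x₀.1 + n := by linear_combination e2
    obtain ⟨-, a2, a3⟩ := d0
    obtain ⟨-, b2, b3⟩ := d1
    rw [hx1, dd_exp1 hN0, a2] at b2
    rw [hx2, dd_exp hN0, a2, a3, ← b2] at b3
    exact dd_alg hN8 hp hp' h0 m b2.symm b3.symm
  · rintro ⟨rfl, hR⟩
    have hq1 : ‖p.1 * p.2‖ < 1 := lt_trans hp.2.2 (by norm_num)
    obtain ⟨x₀, hx₀⟩ := (hDL N (by omega) k p h0 hq1).1
    have hp1 : p.1 ≠ 0 := fun h => h0 (by rw [h, zero_mul])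
    have hp2 : p.2 ≠ 0 := fun h => h0 (by rw [h, mul_zero])
    have hfin : ∀ m : ℤ, GR M t (cout M c) (cout M c) x₀ (x₀.1, x₀.2 + m * x₀.1) := fun m => by
      refine ⟨1, m, 0, by rw [map_one, mul_one], (dd_mob_one _).1.symm, ?_⟩
      rw [(dd_mob_one _).2, mul_one, Int.cast_zero, add_zero]
      ring
    have hex : ∃ l : ℤ, p'.1 * p'.2 = p.1 * p.2 ∧ p'.2 = p.2 * (p.1 * p.2) ^ l ∧
        k - k' = (l : ZMod N) := by
      rcases hR with ⟨rfl, rfl⟩ | ⟨hk, a1, a2⟩ | ⟨hk, a1, a2⟩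
      · exact ⟨0, rfl, by rw [zpow_zero, mul_one], by simp⟩
      · refine ⟨1, ?_, ?_, ?_⟩
        · rw [a2]
          linear_combination (p.1 * p.2) * a1
        · rw [a2, zpow_one]
          ring
        · rw [hk]
          push_cast
          ring
      · refine ⟨-1, ?_, ?_, ?_⟩
        · rw [a2]
          linear_combination (p.1 * p.2) * a1
        · rw [zpow_neg, zpow_one]
          field_simp
          rw [mul_comm]
          exact a1
        · rw [hk]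
          push_cast
          ring
    obtain ⟨l, l1, l2, l3⟩ := hex
    obtain ⟨m, hm⟩ := dd_back hN8 hx₀ h0 l l1 l2 l3
    exact ⟨x₀, _, hx₀, hm, hfin m⟩

end RicP
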